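import Mathlib
import Pool.Agent.U209.BX.Stm

set_option autoImplicit false

/-!
Project BX, package LIM: `S_EXP → S_LIM`.
-/

namespace Pool.Agent.U606.BX.LIM

open Polynomial Complex Finset Filter Topology ComplexConjugate
open Pool.Agent.U209.BX

/-- weights -/
noncomputable def w (z : ℂ) (a b : ℕ) : ℂ :=
  if a ≤ b then (((b : ℂ) - a + 1) / ((b : ℂ) + 1)) * z ^ (b - a) else 0

/-- combined weights -/
noncomputable def WW (P : ℂ[X]) (z : ℂ) (s b : ℕ) : ℂ :=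
  ∑ a ∈ range (P.natDegree + 1), conj (P.coeff a) * w z (s + a) b

/-- the coefficients of the perturbed function -/
noncomputable def gg (h : ℕ → ℕ → ℂ) (Q b : ℕ) : ℂ :=
  ∑ m ∈ range (b + 1), if Q * m ≤ b then h m (b - Q * m) else 0

lemma w_norm {z : ℂ} (hz : ‖z‖ = 1) {a b : ℕ} (hab : a ≤ b) :
    ‖w z a b‖ = ((b : ℝ) - a + 1) / (b + 1) := by
  unfold w
  rw [if_pos hab, norm_mul, norm_pow, hz, one_pow, mul_one]
  have h1 : (((b : ℂ) - a + 1) / ((b : ℂ) + 1)) = ((((b : ℝ) - a + 1) / (b + 1) : ℝ) : ℂ) := by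
    push_cast; ring
  have h2 : (a : ℝ) ≤ b := by exact_mod_cast hab
  rw [h1, Complex.norm_real, Real.norm_eq_abs, abs_of_nonneg]
  exact div_nonneg (by linarith) (by positivity)

lemma w_le_one {z : ℂ} (hz : ‖z‖ = 1) (a b : ℕ) : ‖w z a b‖ ≤ 1 := by
  by_cases hab : a ≤ b
  · rw [w_norm hz hab, div_le_one (by positivity)]
    have : (0 : ℝ) ≤ a := Nat.cast_nonneg a
    linarith
  · unfold w
    rw [if_neg hab, norm_zero]
    exact zero_le_one

lemma shift_tsum (f : ℕ → ℂ) (s : ℕ) (hf : ∀ b, b < s → f b = 0) :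
    ∑' i, f (i + s) = ∑' b, f b := by
  have hinj : Function.Injective (fun i : ℕ => i + s) := add_left_injective s
  refine hinj.tsum_eq ?_
  intro b hb
  by_contra hne
  apply hb
  apply hf
  by_contra h
  exact hne ⟨b - s, by simp only; omega⟩

lemma geo_summable {ρ : ℝ} (hρ : 1 < ρ) : Summable (fun i : ℕ => (ρ⁻¹) ^ i) :=
  summable_geometric_of_lt_one (by positivity) (inv_lt_one_of_one_lt₀ hρ)

lemma geo1_summable {ρ : ℝ} (hρ : 1 < ρ) : Summable (fun i : ℕ => ((i : ℝ) + 1) * (ρ⁻¹) ^ i) := by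
  have h1 : Summable (fun i : ℕ => ((i : ℝ) ^ 1) * (ρ⁻¹) ^ i) := by
    apply summable_pow_mul_geometric_of_norm_lt_one
    rw [Real.norm_eq_abs, abs_of_pos (by positivity)]
    exact inv_lt_one_of_one_lt₀ hρ
  have h2 := h1.add (geo_summable hρ)
  refine h2.congr fun i => ?_
  ring

lemma half_summable : Summable (fun m : ℕ => ((2 : ℝ)⁻¹) ^ m) :=
  summable_geometric_of_lt_one (by norm_num) (by norm_num)

lemma pair {h : ℕ → ℕ → ℂ} {C ρ : ℝ} (hρ : 1 < ρ)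
    (hb : ∀ m i, ‖h m i‖ ≤ C * (2⁻¹) ^ m * (ρ⁻¹) ^ i) {Q : ℕ} (hQ : 1 ≤ Q)
    (W : ℕ → ℂ) (B : ℝ) (hW : ∀ b, ‖W b‖ ≤ B) :
    Summable (fun b => gg h Q b * W b) ∧
    Summable (fun m => ∑' i, h m i * W (i + Q * m)) ∧
    ∑' b, gg h Q b * W b = ∑' m, ∑' i, h m i * W (i + Q * m) := by
  set F : ℕ × ℕ → ℂ := fun p =>
    (if Q * p.1 ≤ p.2 then h p.1 (p.2 - Q * p.1) else 0) * W p.2 with hF
  set e : ℕ × ℕ → ℕ × ℕ := fun p => (p.1, p.2 + Q * p.1) with he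
  have hinj : Function.Injective e := by
    rintro ⟨m, i⟩ ⟨m', i'⟩ h1
    simp only [he, Prod.mk.injEq] at h1
    obtain ⟨rfl, h2⟩ := h1
    simp only [Prod.mk.injEq, true_and]
    omega
  have hB : 0 ≤ B := (norm_nonneg _).trans (hW 0)
  have hFe : ∀ p : ℕ × ℕ, F (e p) = h p.1 p.2 * W (p.2 + Q * p.1) := by
    intro p
    simp only [hF, he]
    rw [if_pos (by omega), Nat.add_sub_cancel]
  have hsum0 : Summable (fun p : ℕ × ℕ => F (e p)) := by
    have h1 : Summable (fun p : ℕ × ℕ => ((2 : ℝ)⁻¹) ^ p.1 * (ρ⁻¹) ^ p.2) :=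
      half_summable.mul_of_nonneg (geo_summable hρ) (fun m => by positivity)
        (fun i => by positivity)
    refine Summable.of_norm_bounded (h1.mul_left (C * B)) fun p => ?_
    rw [hFe, norm_mul]
    calc ‖h p.1 p.2‖ * ‖W (p.2 + Q * p.1)‖
        ≤ (C * (2⁻¹) ^ p.1 * (ρ⁻¹) ^ p.2) * B :=
          mul_le_mul (hb _ _) (hW _) (norm_nonneg _) ((norm_nonneg _).trans (hb _ _))
      _ = C * B * ((2⁻¹) ^ p.1 * (ρ⁻¹) ^ p.2) := by ring
  have hsum : Summable F := by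
    refine (hinj.summable_iff ?_).mp hsum0
    rintro ⟨m, b⟩ hp
    simp only [hF]
    rw [if_neg, zero_mul]
    intro hle
    apply hp
    refine ⟨(m, b - Q * m), ?_⟩
    simp only [he, Prod.mk.injEq, true_and]
    omega
  have hrow : ∀ m, ∑' b, F (m, b) = ∑' i, h m i * W (i + Q * m) := by
    intro m
    rw [← shift_tsum (fun b => F (m, b)) (Q * m)]
    · apply tsum_congr
      intro i
      exact hFe (m, i)
    · intro b hbm
      simp only [hF]
      rw [if_neg (by omega), zero_mul]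
  have hcol : ∀ b, ∑' m, F (m, b) = gg h Q b * W b := by
    intro b
    rw [tsum_eq_sum (s := range (b + 1))]
    · unfold gg
      rw [Finset.sum_mul]
    · intro m hm
      simp only [mem_range, not_lt] at hm
      simp only [hF]
      rw [if_neg, zero_mul]
      intro hle
      have : m ≤ Q * m := Nat.le_mul_of_pos_left m (by omega)
      omega
  have hsum' : Summable (fun p : ℕ × ℕ => F p.swap) := hsum.prod_symm
  refine ⟨?_, ?_, ?_⟩
  · have := hsum'.prod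
    refine this.congr fun b => ?_
    exact hcol b
  · have := hsum.prod
    refine this.congr fun m => ?_
    exact hrow m
  · have h1 := hsum.tsum_comm (f := fun m b => F (m, b))
    simp_rw [hrow, hcol] at h1
    exact h1

/-- `K P` as a pairing -/
lemma K_eq {P : ℂ[X]} {z : ℂ} (hs : ∀ a, Summable (fun b => gco P b * w z a b)) :
    K P z = ∑' b, gco P b * WW P z 0 b := by
  unfold K
  have h1 : ∀ n, Kc P n * z ^ n = ∑ a ∈ range (P.natDegree + 1),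
      conj (P.coeff a) * (gco P (n + a) * w z a (n + a)) := by
    intro n
    unfold Kc
    rw [Finset.sum_mul]
    refine Finset.sum_congr rfl fun a _ => ?_
    unfold w
    rw [if_pos (Nat.le_add_left a n), Nat.add_sub_cancel]
    push_cast
    ring
  simp_rw [h1]
  have h2 : ∀ a, Summable (fun n => gco P (n + a) * w z a (n + a)) := fun a =>
    (summable_nat_add_iff (f := fun b => gco P b * w z a b) a).mpr (hs a)
  rw [Summable.tsum_finsetSum fun a _ => (h2 a).mul_left _]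
  have h3 : ∀ a, ∑' n, conj (P.coeff a) * (gco P (n + a) * w z a (n + a))
      = ∑' b, conj (P.coeff a) * (gco P b * w z a b) := by
    intro a
    have h4 : ∀ b, b < a → conj (P.coeff a) * (gco P b * w z a b) = 0 := by
      intro b hba
      have h5 : w z a b = 0 := by
        unfold w
        rw [if_neg (by omega)]
      rw [h5, mul_zero, mul_zero]
    exact shift_tsum (fun b => conj (P.coeff a) * (gco P b * w z a b)) a h4
  simp_rw [h3]
  rw [← Summable.tsum_finsetSum fun a _ => (hs a).mul_left _]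
  apply tsum_congr
  intro b
  unfold WW
  rw [Finset.mul_sum]
  refine Finset.sum_congr rfl fun a _ => ?_
  rw [zero_add]
  ring

lemma WW_ext (P : ℂ[X]) (z : ℂ) (s b M : ℕ) (hM : P.natDegree + 1 ≤ M) :
    WW P z s b = ∑ a ∈ range M, conj (P.coeff a) * w z (s + a) b := by
  unfold WW
  refine Finset.sum_subset (by simpa using hM) fun a _ ha => ?_
  simp only [mem_range, not_lt] at ha
  rw [Polynomial.coeff_eq_zero_of_natDegree_lt (by omega), map_zero, zero_mul]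

lemma WW_add (u v : ℂ[X]) (z : ℂ) (Q b : ℕ) :
    WW (u + X ^ Q * v) z 0 b = WW u z 0 b + WW v z Q b := by
  set M := u.natDegree + v.natDegree + (u + X ^ Q * v).natDegree + 1 with hM
  rw [WW_ext (u + X ^ Q * v) z 0 b (Q + M) (by omega), WW_ext u z 0 b (Q + M) (by omega),
    WW_ext v z Q b M (by omega)]
  have h1 : ∀ a, (u + X ^ Q * v).coeff a = u.coeff a + if Q ≤ a then v.coeff (a - Q) else 0 := by
    intro a
    rw [Polynomial.coeff_add, mul_comm, Polynomial.coeff_mul_X_pow']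
  simp_rw [h1, map_add, add_mul, Finset.sum_add_distrib]
  congr 1
  rw [Finset.sum_range_add]
  have h2 : ∑ x ∈ range Q, conj (if Q ≤ x then v.coeff (x - Q) else 0) * w z (0 + x) b = 0 := by
    refine Finset.sum_eq_zero fun x hx => ?_
    simp only [mem_range] at hx
    rw [if_neg (by omega), map_zero, zero_mul]
  rw [h2, zero_add]
  refine Finset.sum_congr rfl fun x _ => ?_
  rw [if_pos (by omega), Nat.add_sub_cancel_left, zero_add]

lemma conj_pow_mul {z : ℂ} (hz : ‖z‖ = 1) {a b : ℕ} (hab : a ≤ b) :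
    z ^ b * conj z ^ a = z ^ (b - a) := by
  have h1 : z * conj z = 1 := by
    rw [Complex.mul_conj, Complex.normSq_eq_norm_sq, hz]; simp
  have h2 : z ^ b = z ^ (b - a) * z ^ a := by rw [← pow_add]; congr 1; omega
  rw [h2, mul_assoc, ← mul_pow, h1, one_pow, mul_one]

lemma conj_eval (P : ℂ[X]) (z : ℂ) :
    conj (P.eval z) = ∑ a ∈ range (P.natDegree + 1), conj (P.coeff a) * conj z ^ a := by
  rw [Polynomial.eval_eq_sum_range, map_sum]
  refine Finset.sum_congr rfl fun a _ => ?_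
  rw [map_mul, map_pow]

lemma w_sub {z : ℂ} (hz : ‖z‖ = 1) {a b : ℕ} (hab : a ≤ b) :
    ‖w z a b - z ^ b * conj z ^ a‖ = (a : ℝ) / (b + 1) := by
  rw [conj_pow_mul hz hab]
  unfold w
  rw [if_pos hab]
  have hb : (b : ℂ) + 1 ≠ 0 := by exact_mod_cast Nat.succ_ne_zero b
  have h1 : ((b : ℂ) - a + 1) / ((b : ℂ) + 1) * z ^ (b - a) - z ^ (b - a)
      = ((-((a : ℝ) / (b + 1)) : ℝ) : ℂ) * z ^ (b - a) := by
    push_cast
    field_simp
    ring
  rw [h1, norm_mul, norm_pow, hz, one_pow, mul_one, Complex.norm_real, Real.norm_eq_abs, abs_neg,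
    abs_of_nonneg (by positivity)]

/-- the `u` part -/
lemma U_bound (u : ℂ[X]) {z : ℂ} (hz : ‖z‖ = 1) {Q b : ℕ} (hQ : 1 ≤ Q) (hd : u.natDegree ≤ Q)
    (hb : Q ≤ b) :
    ‖WW u z 0 b - z ^ b * conj (u.eval z)‖
      ≤ (∑ a ∈ range (u.natDegree + 1), ‖u.coeff a‖) * u.natDegree / Q := by
  rw [conj_eval, Finset.mul_sum]
  unfold WW
  rw [← Finset.sum_sub_distrib, Finset.sum_mul, Finset.sum_div]
  refine norm_sum_le_of_le _ fun a ha => ?_
  simp only [mem_range] at ha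
  have h1 : conj (u.coeff a) * w z (0 + a) b - z ^ b * (conj (u.coeff a) * conj z ^ a)
      = conj (u.coeff a) * (w z a b - z ^ b * conj z ^ a) := by
    rw [zero_add]; ring
  rw [h1, norm_mul, RCLike.norm_conj, w_sub hz (by omega), mul_div_assoc]
  have h2 : (a : ℝ) ≤ u.natDegree := by exact_mod_cast (by omega : a ≤ u.natDegree)
  have h3 : (Q : ℝ) ≤ (b : ℝ) + 1 := by
    have : (Q : ℝ) ≤ b := by exact_mod_cast hb
    linarith
  have h4 : (0 : ℝ) < Q := by exact_mod_cast hQ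
  gcongr

/-- the `v` part, `m = 0` -/
lemma V_bound0 (v : ℂ[X]) {z : ℂ} (hz : ‖z‖ = 1) {Q : ℕ} (hQ : 1 ≤ Q) (i : ℕ) :
    ‖WW v z Q i‖ ≤ (∑ a ∈ range (v.natDegree + 1), ‖v.coeff a‖) * ((v.natDegree : ℝ) + 1) *
      ((i : ℝ) + 1) / Q := by
  unfold WW
  rw [Finset.sum_mul, Finset.sum_mul, Finset.sum_div]
  refine norm_sum_le_of_le _ fun j hj => ?_
  rw [norm_mul, RCLike.norm_conj, mul_assoc, mul_div_assoc]
  gcongr
  have h4 : (0 : ℝ) < Q := by exact_mod_cast hQ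
  by_cases h : Q + j ≤ i
  · refine (w_le_one hz _ _).trans ?_
    rw [le_div_iff₀ h4]
    have h5 : (Q : ℝ) ≤ i := by exact_mod_cast (by omega : Q ≤ i)
    nlinarith [Nat.cast_nonneg (α := ℝ) v.natDegree, Nat.cast_nonneg (α := ℝ) i]
  · unfold w
    rw [if_neg h, norm_zero]
    positivity

lemma w_V {z : ℂ} (hz : ‖z‖ = 1) {Q d j : ℕ} (hQ : 1 ≤ Q) (hd : d ≤ Q) (hj : j ≤ d) (i k : ℕ) :
    ‖w z (Q + j) (i + Q * (k + 1)) - ((k : ℂ) / (k + 1)) * (z ^ (i + Q * k) * conj z ^ j)‖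
      ≤ ((d : ℝ) + 1) * ((i : ℝ) + 1) / Q := by
  have h4 : (0 : ℝ) < Q := by exact_mod_cast hQ
  have hdn : (0 : ℝ) ≤ d := Nat.cast_nonneg d
  have hin : (0 : ℝ) ≤ i := Nat.cast_nonneg i
  rcases Nat.eq_zero_or_pos k with rfl | hk
  · simp only [Nat.cast_zero, zero_div, zero_mul, sub_zero, zero_add, mul_one]
    by_cases h : Q + j ≤ i + Q
    · rw [w_norm hz h]
      have h6 : ((i + Q : ℕ) : ℝ) - ((Q + j : ℕ) : ℝ) + 1 ≤ ((d : ℝ) + 1) * ((i : ℝ) + 1) := by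
        push_cast
        have : (0 : ℝ) ≤ j := Nat.cast_nonneg j
        nlinarith
      have h7 : (Q : ℝ) ≤ ((i + Q : ℕ) : ℝ) + 1 := by push_cast; linarith
      gcongr
    · unfold w
      rw [if_neg h, norm_zero]
      positivity
  · have hQk : Q ≤ Q * k := Nat.le_mul_of_pos_right Q hk
    have hjk : j ≤ i + Q * k := by omega
    have hle : Q + j ≤ i + Q * (k + 1) := by rw [Nat.mul_succ]; omega
    rw [conj_pow_mul hz hjk]
    unfold w
    rw [if_pos hle]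
    have e1 : i + Q * (k + 1) - (Q + j) = i + Q * k - j := by rw [Nat.mul_succ]; omega
    rw [e1]
    have hb : ((i + Q * (k + 1) : ℕ) : ℂ) + 1 ≠ 0 := Nat.cast_add_one_ne_zero _
    have hk1 : (k : ℂ) + 1 ≠ 0 := Nat.cast_add_one_ne_zero _
    have e2 : (((i + Q * (k + 1) : ℕ) : ℂ) - ((Q + j : ℕ) : ℂ) + 1) /
        (((i + Q * (k + 1) : ℕ) : ℂ) + 1) * z ^ (i + Q * k - j)
        - ((k : ℂ) / (k + 1)) * z ^ (i + Q * k - j)
        = (((((i : ℝ) + 1 - (k + 1) * j) / ((k + 1) * (i + Q * (k + 1) + 1))) : ℝ) : ℂ) *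
          z ^ (i + Q * k - j) := by
      rw [← sub_mul]
      congr 1
      push_cast at hb ⊢
      rw [div_sub_div _ _ hb hk1, div_eq_div_iff (mul_ne_zero hb hk1) (mul_ne_zero hk1 hb)]
      ring
    rw [e2, norm_mul, norm_pow, hz, one_pow, mul_one, Complex.norm_real, Real.norm_eq_abs, abs_div,
      abs_of_pos (by positivity : (0 : ℝ) < ((k : ℝ) + 1) * (i + Q * (k + 1) + 1))]
    have hkn : (1 : ℝ) ≤ (k : ℝ) + 1 := by
      have : (0 : ℝ) ≤ k := Nat.cast_nonneg k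
      linarith
    have hjn : (0 : ℝ) ≤ j := Nat.cast_nonneg j
    have hjd : (j : ℝ) ≤ d := by exact_mod_cast hj
    have h8 : |(i : ℝ) + 1 - ((k : ℝ) + 1) * j| ≤ ((k : ℝ) + 1) * (((d : ℝ) + 1) * ((i : ℝ) + 1)) := by
      rw [abs_le]
      constructor
      · have : ((k : ℝ) + 1) * j ≤ ((k : ℝ) + 1) * (((d : ℝ) + 1) * ((i : ℝ) + 1)) := by
          gcongr
          nlinarith
        linarith
      · have h9 : (i : ℝ) + 1 ≤ 1 * (((d : ℝ) + 1) * ((i : ℝ) + 1)) := by nlinarith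
        have h10 : 1 * (((d : ℝ) + 1) * ((i : ℝ) + 1)) ≤
            ((k : ℝ) + 1) * (((d : ℝ) + 1) * ((i : ℝ) + 1)) := by gcongr
        have h11 : 0 ≤ ((k : ℝ) + 1) * j := by positivity
        linarith
    have h12 : (Q : ℝ) ≤ (i : ℝ) + Q * (k + 1) + 1 := by nlinarith
    calc |(i : ℝ) + 1 - ((k : ℝ) + 1) * j| / (((k : ℝ) + 1) * (i + Q * (k + 1) + 1))
        ≤ (((k : ℝ) + 1) * (((d : ℝ) + 1) * ((i : ℝ) + 1))) / (((k : ℝ) + 1) * Q) := by gcongr
      _ = ((d : ℝ) + 1) * ((i : ℝ) + 1) / Q := by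
          rw [mul_div_mul_left _ _ (by positivity)]

/-- the `v` part, `m = k + 1` -/
lemma V_bound (v : ℂ[X]) {z : ℂ} (hz : ‖z‖ = 1) {Q : ℕ} (hQ : 1 ≤ Q) (hd : v.natDegree ≤ Q)
    (i k : ℕ) :
    ‖WW v z Q (i + Q * (k + 1)) - ((k : ℂ) / (k + 1)) * (z ^ (i + Q * k) * conj (v.eval z))‖
      ≤ (∑ a ∈ range (v.natDegree + 1), ‖v.coeff a‖) * ((v.natDegree : ℝ) + 1) *
      ((i : ℝ) + 1) / Q := by
  rw [conj_eval, Finset.mul_sum, Finset.mul_sum]
  unfold WW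
  rw [← Finset.sum_sub_distrib, Finset.sum_mul, Finset.sum_mul, Finset.sum_div]
  refine norm_sum_le_of_le _ fun j hj => ?_
  simp only [mem_range] at hj
  have h1 : conj (v.coeff j) * w z (Q + j) (i + Q * (k + 1))
      - ((k : ℂ) / (k + 1)) * (z ^ (i + Q * k) * (conj (v.coeff j) * conj z ^ j))
      = conj (v.coeff j) * (w z (Q + j) (i + Q * (k + 1))
        - ((k : ℂ) / (k + 1)) * (z ^ (i + Q * k) * conj z ^ j)) := by ring
  rw [h1, norm_mul, RCLike.norm_conj, mul_assoc, mul_div_assoc]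
  gcongr
  exact w_V hz hQ hd (by omega) i k

lemma gco_eq {u v : ℂ[X]} (hu : u.eval 0 ≠ 0) {Q b : ℕ} (hb : b < Q) :
    gco (u + X ^ Q * v) b = gco u b := by
  unfold gco
  set A : PowerSeries ℂ := (u : PowerSeries ℂ) with hA
  set B : PowerSeries ℂ := ((u + X ^ Q * v : ℂ[X]) : PowerSeries ℂ) with hB
  have hQ : Q ≠ 0 := by omega
  have hBA : B = A + PowerSeries.X ^ Q * (v : PowerSeries ℂ) := by
    rw [hB, hA]
    push_cast
    rfl
  have hA0 : PowerSeries.constantCoeff A ≠ 0 := by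
    rw [hA, Polynomial.constantCoeff_coe, Polynomial.coeff_zero_eq_eval_zero]
    exact hu
  have hB0 : PowerSeries.constantCoeff B ≠ 0 := by
    rw [hBA, map_add, map_mul, map_pow, PowerSeries.constantCoeff_X, zero_pow hQ, zero_mul,
      add_zero]
    exact hA0
  have h1 : B⁻¹ = A⁻¹ - PowerSeries.X ^ Q * ((v : PowerSeries ℂ) * A⁻¹ * B⁻¹) := by
    have hAi := PowerSeries.mul_inv_cancel A hA0
    have hBi := PowerSeries.mul_inv_cancel B hB0
    have h2 : B⁻¹ = (A * A⁻¹) * B⁻¹ := by rw [hAi, one_mul]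
    have h3 : A⁻¹ = A⁻¹ * (B * B⁻¹) := by rw [hBi, mul_one]
    calc B⁻¹ = (A * A⁻¹) * B⁻¹ := h2
      _ = A⁻¹ * (B * B⁻¹) - PowerSeries.X ^ Q * ((v : PowerSeries ℂ) * A⁻¹ * B⁻¹) := by
          rw [show A = B - PowerSeries.X ^ Q * (v : PowerSeries ℂ) by rw [hBA]; ring]
          ring
      _ = A⁻¹ - PowerSeries.X ^ Q * ((v : PowerSeries ℂ) * A⁻¹ * B⁻¹) := by rw [← h3]
  have h2 : B⁻¹ ^ 2 - A⁻¹ ^ 2 = PowerSeries.X ^ Q *
      (-((v : PowerSeries ℂ) * A⁻¹ * B⁻¹) * (B⁻¹ + A⁻¹)) := by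
    have : B⁻¹ - A⁻¹ = - (PowerSeries.X ^ Q * ((v : PowerSeries ℂ) * A⁻¹ * B⁻¹)) := by
      conv_lhs => rw [h1]
      ring
    calc B⁻¹ ^ 2 - A⁻¹ ^ 2 = (B⁻¹ - A⁻¹) * (B⁻¹ + A⁻¹) := by ring
      _ = _ := by rw [this]; ring
  have h3 : PowerSeries.coeff b (B⁻¹ ^ 2 - A⁻¹ ^ 2) = 0 := by
    rw [h2, PowerSeries.coeff_X_pow_mul', if_neg (by omega)]
  rw [map_sub, sub_eq_zero] at h3
  exact h3

lemma WW_norm_le (P : ℂ[X]) {z : ℂ} (hz : ‖z‖ = 1) (s b : ℕ) :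
    ‖WW P z s b‖ ≤ ∑ a ∈ range (P.natDegree + 1), ‖P.coeff a‖ := by
  unfold WW
  refine norm_sum_le_of_le _ fun a _ => ?_
  rw [norm_mul, RCLike.norm_conj]
  calc ‖P.coeff a‖ * ‖w z (s + a) b‖ ≤ ‖P.coeff a‖ * 1 := by
        gcongr
        exact w_le_one hz _ _
    _ = ‖P.coeff a‖ := mul_one _

lemma numeric (k : ℕ) : ((k : ℝ) + 3) * (1 / 3) ^ k ≤ 3 * (1 / 2) ^ k := by
  induction k with
  | zero => norm_num
  | succ k ih =>
    have h1 : (0 : ℝ) < (1 / 3) ^ k := by positivity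
    have h2 : (0 : ℝ) ≤ k := Nat.cast_nonneg k
    rw [pow_succ, pow_succ]
    push_cast
    nlinarith

lemma term_bound {x y : ℝ} (hx : 0 ≤ x) (hy : 0 < y) (hxy : 3 * x ≤ y) (k : ℕ) :
    ((k : ℝ) + 3) * x ^ (k + 2) / y ^ (k + 4) * (y + x) ≤ (1 / 2) ^ k * (4 * x ^ 2 / y ^ 3) := by
  have h1 : x ^ k ≤ (1 / 3) ^ k * y ^ k := by
    rw [← mul_pow]
    gcongr
    linarith
  have h2 : y + x ≤ 4 / 3 * y := by linarith
  have h3 := numeric k
  calc ((k : ℝ) + 3) * x ^ (k + 2) / y ^ (k + 4) * (y + x)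
      = ((k : ℝ) + 3) * (x ^ 2 * x ^ k) / y ^ (k + 4) * (y + x) := by rw [pow_add, mul_comm (x ^ k)]
    _ ≤ ((k : ℝ) + 3) * (x ^ 2 * ((1 / 3) ^ k * y ^ k)) / y ^ (k + 4) * (4 / 3 * y) := by gcongr
    _ = (((k : ℝ) + 3) * (1 / 3) ^ k) * (4 / 3) * (x ^ 2 / y ^ 3) := by
        rw [pow_add y k 4]
        field_simp
    _ ≤ (3 * (1 / 2) ^ k) * (4 / 3) * (x ^ 2 / y ^ 3) := by gcongr
    _ = (1 / 2) ^ k * (4 * x ^ 2 / y ^ 3) := by ring

theorem t_LIM : S_EXP → S_LIM := by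
  intro hE u v hu hv ε hε
  obtain ⟨hZ, h, C, ρ, hρ, hb, hH, hg⟩ := hE u v hu hv
  set S1 : ℝ := ∑' i : ℕ, ((i : ℝ) + 1) * (ρ⁻¹) ^ i with hS1
  set Su : ℝ := ∑ a ∈ range (u.natDegree + 1), ‖u.coeff a‖ with hSu
  set Sv : ℝ := ∑ a ∈ range (v.natDegree + 1), ‖v.coeff a‖ with hSv
  have hSu0 : 0 ≤ Su := Finset.sum_nonneg fun _ _ => norm_nonneg _
  have hSv0 : 0 ≤ Sv := Finset.sum_nonneg fun _ _ => norm_nonneg _
  set D : ℝ := Su * u.natDegree + Sv * ((v.natDegree : ℝ) + 1) with hD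
  have hD0 : 0 ≤ D := by positivity
  have hC : 0 ≤ C := by
    have := (norm_nonneg _).trans (hb 0 0)
    simpa using this
  have hρ0 : 0 < ρ⁻¹ := by positivity
  have hs1 := geo1_summable hρ
  have hS10 : 0 ≤ S1 := tsum_nonneg fun i => by positivity
  obtain ⟨Q1, hQ1⟩ := exists_nat_ge (2 * (C * D * S1) / ε)
  refine ⟨max (max u.natDegree v.natDegree) (max 1 Q1), fun Q hQ z hz => ?_⟩
  have hQu : u.natDegree ≤ Q := by omega
  have hQv : v.natDegree ≤ Q := by omega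
  have hQ1' : 1 ≤ Q := by omega
  have hQQ : Q1 ≤ Q := by omega
  have hQpos : (0 : ℝ) < Q := by exact_mod_cast hQ1'
  set E : ℝ := C * D * S1 / Q with hEdef
  have hE0 : 0 ≤ E := by positivity
  have hEε : 2 * E ≤ ε := by
    rw [hEdef, ← mul_div_assoc, div_le_iff₀ hQpos]
    rw [div_le_iff₀ hε] at hQ1
    have : (Q1 : ℝ) ≤ Q := by exact_mod_cast hQQ
    nlinarith
  -- coefficients
  have hgg : ∀ b, gco (u + X ^ Q * v) b = gg h Q b := fun b => hg Q hQ1' b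
  have hu0 : u.eval 0 ≠ 0 := hu 0 (by simp)
  have h0 : ∀ b, gco u b = h 0 b := by
    intro b
    have h1 := hg (b + 1) (by omega) b
    rw [gco_eq hu0 (by omega)] at h1
    rw [h1, Finset.sum_eq_single 0]
    · simp
    · intro m _ hm
      rw [if_neg]
      have : b + 1 ≤ (b + 1) * m := Nat.le_mul_of_pos_right _ (by omega)
      omega
    · intro h2
      simp at h2
  -- K u'
  have hKu' : K (u + X ^ Q * v) z = ∑' m, ∑' i, h m i * WW (u + X ^ Q * v) z 0 (i + Q * m) := by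
    rw [K_eq]
    · simp_rw [hgg]
      exact (pair hρ hb hQ1' (WW (u + X ^ Q * v) z 0) _ (fun b => WW_norm_le _ hz 0 b)).2.2
    · intro a
      simp_rw [hgg]
      exact (pair hρ hb hQ1' (w z a) 1 (fun b => w_le_one hz a b)).1
  have hsR : Summable (fun m => ∑' i, h m i * WW (u + X ^ Q * v) z 0 (i + Q * m)) :=
    (pair hρ hb hQ1' (WW (u + X ^ Q * v) z 0) _ (fun b => WW_norm_le _ hz 0 b)).2.1
  have hsum : ∀ (m : ℕ) (W : ℕ → ℂ) (B : ℝ), (∀ i, ‖W i‖ ≤ B) →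
      Summable (fun i => h m i * W i) := by
    intro m W B hW
    refine Summable.of_norm_bounded ((geo_summable hρ).mul_left (C * (2⁻¹) ^ m * B)) fun i => ?_
    rw [norm_mul]
    calc ‖h m i‖ * ‖W i‖ ≤ (C * (2⁻¹) ^ m * (ρ⁻¹) ^ i) * B :=
          mul_le_mul (hb _ _) (hW _) (norm_nonneg _) ((norm_nonneg _).trans (hb _ _))
      _ = C * (2⁻¹) ^ m * B * (ρ⁻¹) ^ i := by ring
  have hKu : K u z = ∑' i, h 0 i * WW u z 0 i := by
    rw [K_eq]
    · simp_rw [h0]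
    · intro a
      simp_rw [h0]
      exact hsum 0 (w z a) 1 fun i => w_le_one hz a i
  set R : ℕ → ℂ := fun m => ∑' i, h m i * WW (u + X ^ Q * v) z 0 (i + Q * m) with hR
  -- the tail estimate
  have htail : ∀ (m : ℕ) (f : ℕ → ℂ), (∀ i, ‖f i‖ ≤ ‖h m i‖ * (D * ((i : ℝ) + 1) / Q)) →
      ‖∑' i, f i‖ ≤ (1 / 2) ^ m * E := by
    intro m f hf
    have h1 : HasSum (fun i : ℕ => (1 / 2 : ℝ) ^ m * (C * D / Q) * (((i : ℝ) + 1) * (ρ⁻¹) ^ i))
        ((1 / 2 : ℝ) ^ m * (C * D / Q) * S1) := hs1.hasSum.mul_left _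
    have h2 : ‖∑' i, f i‖ ≤ (1 / 2 : ℝ) ^ m * (C * D / Q) * S1 := by
      refine tsum_of_norm_bounded h1 fun i => ?_
      refine (hf i).trans ?_
      calc ‖h m i‖ * (D * ((i : ℝ) + 1) / Q)
          ≤ (C * (2⁻¹) ^ m * (ρ⁻¹) ^ i) * (D * ((i : ℝ) + 1) / Q) := by
            gcongr
            exact hb m i
        _ = (1 / 2 : ℝ) ^ m * (C * D / Q) * (((i : ℝ) + 1) * (ρ⁻¹) ^ i) := by
            rw [one_div]; ring
    refine h2.trans (le_of_eq ?_)
    rw [hEdef]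
    ring
  have hR0 : ‖R 0 - K u z‖ ≤ E := by
    have h1 : R 0 - K u z = ∑' i, h 0 i * WW v z Q i := by
      rw [hKu, hR]
      simp only
      rw [← (hsum 0 (fun i => WW (u + X ^ Q * v) z 0 (i + Q * 0)) _
        (fun i => WW_norm_le _ hz 0 _)).tsum_sub (hsum 0 (fun i => WW u z 0 i) _
        (fun i => WW_norm_le _ hz 0 _))]
      apply tsum_congr
      intro i
      rw [WW_add, Nat.mul_zero, Nat.add_zero]
      ring
    rw [h1]
    have h2 := htail 0 (fun i => h 0 i * WW v z Q i) (fun i => by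
      rw [norm_mul]
      gcongr
      refine (V_bound0 v hz hQ1' i).trans ?_
      gcongr
      rw [hD]
      have : 0 ≤ Su * u.natDegree := by positivity
      linarith)
    simpa using h2
  have hRk : ∀ k : ℕ, ‖R (k + 1) - ((-1) ^ (k + 1) * (((k + 1 : ℕ) : ℂ) + 1) *
      (v.eval z) ^ (k + 1) * ((u.eval z) ^ (k + 1 + 2))⁻¹) *
      (z ^ (Q * (k + 1)) * conj (u.eval z) +
        ((k : ℂ) / (k + 1)) * (z ^ (Q * k) * conj (v.eval z)))‖ ≤ (1 / 2) ^ (k + 1) * E := by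
    intro k
    have h1 := (hH (k + 1) z hz.le).mul_right (z ^ (Q * (k + 1)) * conj (u.eval z) +
        ((k : ℂ) / (k + 1)) * (z ^ (Q * k) * conj (v.eval z)))
    have h2 := (hsum (k + 1) (fun i => WW (u + X ^ Q * v) z 0 (i + Q * (k + 1))) _
        (fun i => WW_norm_le _ hz 0 _)).hasSum.sub h1
    rw [← h2.tsum_eq]
    refine htail (k + 1) _ fun i => ?_
    have h3 : h (k + 1) i * WW (u + X ^ Q * v) z 0 (i + Q * (k + 1)) -
        h (k + 1) i * z ^ i * (z ^ (Q * (k + 1)) * conj (u.eval z) +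
        ((k : ℂ) / (k + 1)) * (z ^ (Q * k) * conj (v.eval z)))
        = h (k + 1) i * ((WW u z 0 (i + Q * (k + 1)) - z ^ (i + Q * (k + 1)) * conj (u.eval z)) +
          (WW v z Q (i + Q * (k + 1)) -
            ((k : ℂ) / (k + 1)) * (z ^ (i + Q * k) * conj (v.eval z)))) := by
      rw [WW_add, pow_add z i (Q * (k + 1)), pow_add z i (Q * k)]
      ring
    rw [h3, norm_mul]
    gcongr
    refine (norm_add_le _ _).trans ?_
    have h4 := U_bound u hz hQ1' hQu (b := i + Q * (k + 1)) (by rw [Nat.mul_succ]; omega)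
    have h5 := V_bound v hz hQ1' hQv i k
    refine (add_le_add h4 h5).trans ?_
    rw [← hSu, ← hSv, ← add_div, hD]
    gcongr
    have h6 : Su * u.natDegree ≤ Su * u.natDegree * ((i : ℝ) + 1) := by
      have h7 : 0 ≤ Su * u.natDegree := by positivity
      have h8 : (0 : ℝ) ≤ i := Nat.cast_nonneg i
      nlinarith
    linarith
  -- the sum
  have hsplit : K (u + X ^ Q * v) z = R 0 + R 1 + ∑' k, R (k + 2) := by
    rw [hKu', ← hsR.sum_add_tsum_nat_add 2, Finset.sum_range_succ, Finset.sum_range_one]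
  have hy : 0 < ‖u.eval z‖ := norm_pos_iff.mpr (hu z hz.le)
  have hx : 0 ≤ ‖v.eval z‖ := norm_nonneg _
  have hxy : 3 * ‖v.eval z‖ ≤ ‖u.eval z‖ := hv z hz
  have hR1 : ‖R 1 + 2 * conj (u.eval z) / (u.eval z) ^ 3 * (z ^ Q * v.eval z)‖ ≤ 1 / 2 * E := by
    have h1 := hRk 0
    have hne : u.eval z ≠ 0 := hu z hz.le
    have h2 : R (0 + 1) - ((-1) ^ (0 + 1) * (((0 + 1 : ℕ) : ℂ) + 1) *
      (v.eval z) ^ (0 + 1) * ((u.eval z) ^ (0 + 1 + 2))⁻¹) *
      (z ^ (Q * (0 + 1)) * conj (u.eval z) +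
        (((0 : ℕ) : ℂ) / ((0 : ℕ) + 1)) * (z ^ (Q * 0) * conj (v.eval z)))
        = R 1 + 2 * conj (u.eval z) / (u.eval z) ^ 3 * (z ^ Q * v.eval z) := by
      simp only [Nat.zero_add, Nat.mul_one, pow_one, Nat.cast_one, Nat.cast_zero, zero_div,
        zero_mul, add_zero]
      rw [div_eq_mul_inv]
      ring
    rw [h2] at h1
    simpa using h1
  have hR2 : ‖∑' k, R (k + 2)‖ ≤ 8 * ‖v.eval z‖ ^ 2 / ‖u.eval z‖ ^ 3 + 1 / 2 * E := by
    have h1 : HasSum (fun k : ℕ => (1 / 2 : ℝ) ^ k * (4 * ‖v.eval z‖ ^ 2 / ‖u.eval z‖ ^ 3 + 1 / 4 * E))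
        (2 * (4 * ‖v.eval z‖ ^ 2 / ‖u.eval z‖ ^ 3 + 1 / 4 * E)) :=
      hasSum_geometric_two.mul_right _
    refine (tsum_of_norm_bounded h1 fun k => ?_).trans (le_of_eq (by ring))
    have h2 := hRk (k + 1)
    set Hk : ℂ := ((-1) ^ (k + 1 + 1) * (((k + 1 + 1 : ℕ) : ℂ) + 1) *
      (v.eval z) ^ (k + 1 + 1) * ((u.eval z) ^ (k + 1 + 1 + 2))⁻¹) *
      (z ^ (Q * (k + 1 + 1)) * conj (u.eval z) +
        (((k + 1 : ℕ) : ℂ) / ((k + 1 : ℕ) + 1)) * (z ^ (Q * (k + 1)) * conj (v.eval z))) with hHk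
    have h3 : ‖Hk‖ ≤ (1 / 2) ^ k * (4 * ‖v.eval z‖ ^ 2 / ‖u.eval z‖ ^ 3) := by
      refine le_trans ?_ (term_bound hx hy hxy k)
      rw [hHk, norm_mul]
      have h4 : ‖(-1 : ℂ) ^ (k + 1 + 1) * (((k + 1 + 1 : ℕ) : ℂ) + 1) *
          (v.eval z) ^ (k + 1 + 1) * ((u.eval z) ^ (k + 1 + 1 + 2))⁻¹‖
          = ((k : ℝ) + 3) * ‖v.eval z‖ ^ (k + 2) / ‖u.eval z‖ ^ (k + 4) := by
        have h5 : (((k + 1 + 1 : ℕ) : ℂ) + 1) = (((k : ℝ) + 3 : ℝ) : ℂ) := by push_cast; ring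
        rw [norm_mul, norm_mul, norm_mul, norm_pow, norm_neg, norm_one, one_pow, one_mul, h5,
          Complex.norm_real, Real.norm_eq_abs, abs_of_nonneg (by positivity), norm_pow, norm_inv,
          norm_pow, div_eq_mul_inv]
      have h6 : ‖z ^ (Q * (k + 1 + 1)) * conj (u.eval z) +
        (((k + 1 : ℕ) : ℂ) / ((k + 1 : ℕ) + 1)) * (z ^ (Q * (k + 1)) * conj (v.eval z))‖
          ≤ ‖u.eval z‖ + ‖v.eval z‖ := by
        refine (norm_add_le _ _).trans ?_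
        have h7 : (((k + 1 : ℕ) : ℂ) / ((k + 1 : ℕ) + 1))
            = ((((k : ℝ) + 1) / ((k : ℝ) + 2) : ℝ) : ℂ) := by push_cast; ring
        rw [norm_mul, norm_mul, norm_mul, norm_pow, norm_pow, hz, one_pow, one_pow, one_mul,
          one_mul, RCLike.norm_conj, RCLike.norm_conj, h7, Complex.norm_real, Real.norm_eq_abs,
          abs_of_nonneg (by positivity)]
        have h8 : ((k : ℝ) + 1) / ((k : ℝ) + 2) ≤ 1 := by
          rw [div_le_one (by positivity)]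
          linarith
        have h9 : ((k : ℝ) + 1) / ((k : ℝ) + 2) * ‖v.eval z‖ ≤ 1 * ‖v.eval z‖ := by gcongr
        linarith
      rw [h4]
      gcongr
    have h10 : R (k + 2) = (R (k + 1 + 1) - Hk) + Hk := by ring
    rw [h10]
    refine (norm_add_le _ _).trans ?_
    have h11 : ((1 : ℝ) / 2) ^ (k + 1 + 1) * E = (1 / 2) ^ k * (1 / 4 * E) := by ring
    rw [h11] at h2
    calc ‖R (k + 1 + 1) - Hk‖ + ‖Hk‖ ≤ (1 / 2) ^ k * (1 / 4 * E) +
          (1 / 2) ^ k * (4 * ‖v.eval z‖ ^ 2 / ‖u.eval z‖ ^ 3) := add_le_add h2 h3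
      _ = (1 / 2) ^ k * (4 * ‖v.eval z‖ ^ 2 / ‖u.eval z‖ ^ 3 + 1 / 4 * E) := by ring
  have hfin : K (u + X ^ Q * v) z - K u z +
      2 * conj (u.eval z) / (u.eval z) ^ 3 * (z ^ Q * v.eval z)
      = (R 0 - K u z) + (R 1 + 2 * conj (u.eval z) / (u.eval z) ^ 3 * (z ^ Q * v.eval z)) +
        ∑' k, R (k + 2) := by
    rw [hsplit]
    ring
  rw [hfin]
  refine (norm_add₃_le).trans ?_
  have h20 : 8 * ‖v.eval z‖ ^ 2 / ‖u.eval z‖ ^ 3 ≤ 20 * ‖v.eval z‖ ^ 2 / ‖u.eval z‖ ^ 3 := by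
    gcongr
    norm_num
  linarith

end Pool.Agent.U606.BX.LIM
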